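import Mathlib

set_option autoImplicit false

namespace Pool.Agent.H.MP_acfcdd_co

/-- time distance in the half plane where the depth changes at speed one and the horizontal speed
at depth `y` is `2 y` -/
noncomputable def dR (x y x' y' : ℝ) : ℝ :=
  max |y - y'| (Real.sqrt (2 * (|x - x'| + y ^ 2 + y' ^ 2)) - y - y')

theorem dR_nonneg (x y x' y' : ℝ) : 0 ≤ dR x y x' y' := le_max_of_le_left (abs_nonneg _)

theorem dR_le_iff {x y x' y' t : ℝ} (hy : 0 ≤ y) (hy' : 0 ≤ y') :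
    dR x y x' y' ≤ t ↔ |y - y'| ≤ t ∧ |x - x'| + y ^ 2 + y' ^ 2 ≤ (y + y' + t) ^ 2 / 2 := by
  unfold dR
  rw [max_le_iff]
  constructor
  · rintro ⟨h1, h2⟩
    refine ⟨h1, ?_⟩
    have h3 : Real.sqrt (2 * (|x - x'| + y ^ 2 + y' ^ 2)) ≤ y + y' + t := by linarith
    have := (Real.sqrt_le_iff.1 h3).2
    linarith
  · rintro ⟨h1, h2⟩
    refine ⟨h1, ?_⟩
    have ht : 0 ≤ t := le_trans (abs_nonneg _) h1
    have h3 : Real.sqrt (2 * (|x - x'| + y ^ 2 + y' ^ 2)) ≤ y + y' + t :=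
      Real.sqrt_le_iff.2 ⟨by linarith, by linarith⟩
    linarith

theorem dR_comm (x y x' y' : ℝ) : dR x y x' y' = dR x' y' x y := by
  unfold dR
  rw [abs_sub_comm y y', abs_sub_comm x x']
  congr 1
  rw [show |x' - x| + y ^ 2 + y' ^ 2 = |x' - x| + y' ^ 2 + y ^ 2 by ring]
  ring

theorem dR_self {x y : ℝ} (hy : 0 ≤ y) : dR x y x y = 0 := by
  refine le_antisymm ((dR_le_iff hy hy).2 ⟨by simp, ?_⟩) (dR_nonneg _ _ _ _)
  simp only [sub_self, abs_zero]
  nlinarith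

theorem dR_tri {x y x' y' x'' y'' : ℝ} (hy : 0 ≤ y) (hy' : 0 ≤ y') (hy'' : 0 ≤ y'') :
    dR x y x'' y'' ≤ dR x y x' y' + dR x' y' x'' y'' := by
  obtain ⟨h1, h2⟩ := (dR_le_iff (x := x) (x' := x') hy hy').1 le_rfl
  obtain ⟨h3, h4⟩ := (dR_le_iff (x := x') (x' := x'') hy' hy'').1 le_rfl
  set s := dR x y x' y'
  set t := dR x' y' x'' y''
  refine (dR_le_iff hy hy'').2 ⟨?_, ?_⟩
  · exact le_trans (abs_sub_le y y' y'') (add_le_add h1 h3)
  · have h5 := abs_sub_le x x' x''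
    have h6 := abs_le.1 h1
    have h7 := abs_le.1 h3
    have h8 : 0 ≤ (y + s - y') * (y'' + t - y') := mul_nonneg (by linarith) (by linarith)
    nlinarith

abbrev Idx := ℝ × ℝ × ℝ

open Classical in
/-- hedgehog distance -/
noncomputable def dE (i : Idx) (h : ℝ) (j : Idx) (h' : ℝ) : ℝ :=
  if i = j then |h - h'| else h + h'

@[ext]
structure Pt where
  x : ℝ
  y : ℝ
  i : Idx
  h : ℝ

def i0 : Idx := (0, 0, 0)

/-- `(σ, x*, y*)` : departure time and landing point -/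
def Valid (i : Idx) : Prop :=
  0 < i.1 ∧ i.1 ≤ 1 / 4 ∧ |i.2.1| ≤ 1 / 2 ∧ 0 < i.2.2 ∧ i.2.2 ^ 2 + i.1 ^ 2 = 2 ∧
    (i.2.1 + i.1 ^ 2 = 0 ∨ Irrational (i.2.1 + i.1 ^ 2))

def bb (t : ℝ) : ℝ := 4 - (2 - t) ^ 2

def chi (i : Idx) (b : ℝ) : ℝ := max (-(max 0 (b - bb i.1))) (min i.2.1 (max 0 (b - bb i.1)))

def Mem (p : Pt) : Prop :=
  0 ≤ p.y ∧ ((p.h = 0 ∧ p.i = i0 ∧ (p.y ≤ 3 / 2 ∨ (p.x = 0 ∧ 7 / 4 ≤ p.y ∧ p.y ≤ 2))) ∨
    (Valid p.i ∧ p.i.1 < 2 - p.y ∧ p.i.2.2 < p.y ∧ p.x = chi p.i (bb (2 - p.y)) ∧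
      p.h = min (2 - p.y - p.i.1) (p.y - p.i.2.2)))

def X : Type := {p : Pt // Mem p}

theorem Mem.h_nonneg {p : Pt} (hp : Mem p) : 0 ≤ p.h := by
  rcases hp.2 with h | h
  · exact h.1.ge
  · rw [h.2.2.2.2]
    exact le_min (by linarith [h.2.1]) (by linarith [h.2.2.1])

theorem Mem.i_eq {p : Pt} (hp : Mem p) (h0 : p.h ≤ 0) : p.i = i0 := by
  rcases hp.2 with h | h
  · exact h.2.1
  · exfalso
    have : 0 < min (2 - p.y - p.i.1) (p.y - p.i.2.2) :=
      lt_min (by linarith [h.2.1]) (by linarith [h.2.2.1])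
    linarith [h.2.2.2.2]

theorem Valid.y_gt {i : Idx} (hi : Valid i) : 4 / 3 < i.2.2 := by
  obtain ⟨h1, h2, -, h4, h5, -⟩ := hi
  nlinarith

theorem Valid.y_lt {i : Idx} (hi : Valid i) : i.2.2 < 3 / 2 := by
  obtain ⟨h1, h2, -, h4, h5, -⟩ := hi
  nlinarith

theorem Mem.h_zero {p : Pt} (hp : Mem p) (hy : p.y ≤ 1) : p.h = 0 ∧ p.i = i0 := by
  rcases hp.2 with h | h
  · exact ⟨h.1, h.2.1⟩
  · exfalso
    linarith [h.1.y_gt, h.2.2.1]

theorem Mem.stem {p : Pt} (hp : Mem p) (h0 : 0 < p.h) :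
    Valid p.i ∧ p.i.1 < 2 - p.y ∧ p.i.2.2 < p.y ∧ p.x = chi p.i (bb (2 - p.y)) ∧
      p.h = min (2 - p.y - p.i.1) (p.y - p.i.2.2) := by
  rcases hp.2 with h | h
  · exfalso
    linarith [h.1]
  · exact h

theorem dE_nonneg {i j : Idx} {h h' : ℝ} (h1 : 0 ≤ h) (h2 : 0 ≤ h') : 0 ≤ dE i h j h' := by
  unfold dE
  split_ifs
  · exact abs_nonneg _
  · linarith

theorem dE_tri {i j k : Idx} {h h' h'' : ℝ} (h1 : 0 ≤ h) (h2 : 0 ≤ h') (h3 : 0 ≤ h'') :
    dE i h k h'' ≤ dE i h j h' + dE j h' k h'' := by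
  unfold dE
  by_cases a : i = j <;> by_cases b : j = k <;> by_cases c : i = k
  · simp only [if_pos a, if_pos b, if_pos c]
    exact abs_sub_le _ _ _
  · exact absurd (a.trans b) c
  · exact absurd (a.symm.trans c) b
  · simp only [if_pos a, if_neg b, if_neg c]
    linarith [le_abs_self (h - h')]
  · exact absurd (c.trans b.symm) a
  · simp only [if_neg a, if_pos b, if_neg c]
    linarith [neg_abs_le (h' - h'')]
  · simp only [if_neg a, if_neg b, if_pos c]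
    exact abs_le.2 ⟨by linarith, by linarith⟩
  · simp only [if_neg a, if_neg b, if_neg c]
    linarith

noncomputable instance : MetricSpace X where
  dist p q := max (dR p.1.x p.1.y q.1.x q.1.y) (dE p.1.i p.1.h q.1.i q.1.h)
  dist_self p := by
    rw [dR_self p.2.1]
    simp [dE]
  dist_comm p q := by
    rw [dR_comm]
    congr 1
    unfold dE
    by_cases a : p.1.i = q.1.i
    · rw [if_pos a, if_pos a.symm, abs_sub_comm]
    · rw [if_neg a, if_neg (Ne.symm a), add_comm]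
  dist_triangle p q r := by
    refine max_le ?_ ?_
    · exact le_trans (dR_tri p.2.1 q.2.1 r.2.1) (add_le_add (le_max_left _ _) (le_max_left _ _))
    · exact le_trans (dE_tri p.2.h_nonneg q.2.h_nonneg r.2.h_nonneg)
        (add_le_add (le_max_right _ _) (le_max_right _ _))
  eq_of_dist_eq_zero := by
    intro p q hd
    have h1 : dR p.1.x p.1.y q.1.x q.1.y ≤ 0 := le_trans (le_max_left _ _) hd.le
    have h2 : dE p.1.i p.1.h q.1.i q.1.h ≤ 0 := le_trans (le_max_right _ _) hd.le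
    obtain ⟨h3, h4⟩ := (dR_le_iff p.2.1 q.2.1).1 h1
    have hy : p.1.y = q.1.y := by
      have := abs_nonpos_iff.1 h3
      linarith
    have hx : p.1.x = q.1.x := by
      rw [hy] at h4
      have h5 : |p.1.x - q.1.x| ≤ 0 := by nlinarith
      have := abs_nonpos_iff.1 h5
      linarith
    have hih : p.1.i = q.1.i ∧ p.1.h = q.1.h := by
      unfold dE at h2
      by_cases a : p.1.i = q.1.i
      · rw [if_pos a] at h2
        have := abs_nonpos_iff.1 h2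
        exact ⟨a, by linarith⟩
      · rw [if_neg a] at h2
        exfalso
        have b1 := p.2.h_nonneg
        have b2 := q.2.h_nonneg
        exact a ((p.2.i_eq (by linarith)).trans (q.2.i_eq (by linarith)).symm)
    exact Subtype.ext (Pt.ext hx hy hih.1 hih.2)

theorem dist_le_iff {p q : X} {t : ℝ} :
    dist p q ≤ t ↔ (|p.1.y - q.1.y| ≤ t ∧
      |p.1.x - q.1.x| + p.1.y ^ 2 + q.1.y ^ 2 ≤ (p.1.y + q.1.y + t) ^ 2 / 2) ∧
        dE p.1.i p.1.h q.1.i q.1.h ≤ t := by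
  rw [← dR_le_iff p.2.1 q.2.1, ← max_le_iff]
  rfl

theorem lip_of {f : NNReal → X}
    (h : ∀ a b : NNReal, a ≤ b → dist (f a) (f b) ≤ (b : ℝ) - a) : LipschitzWith 1 f := by
  refine LipschitzWith.mk_one fun a b => ?_
  rw [NNReal.dist_eq]
  rcases le_total a b with hab | hab
  · refine le_trans (h a b hab) ?_
    rw [abs_sub_comm]
    exact le_abs_self _
  · rw [dist_comm]
    exact le_trans (h b a hab) (le_abs_self _)

theorem lip_real {f : NNReal → X} (hf : LipschitzWith 1 f) {s t : ℝ} (hs : 0 ≤ s) (hst : s ≤ t) :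
    dist (f s.toNNReal) (f t.toNNReal) ≤ t - s := by
  have := hf.dist_le_mul s.toNNReal t.toNNReal
  rw [NNReal.dist_eq, Real.coe_toNNReal _ hs, Real.coe_toNNReal _ (hs.trans hst), abs_sub_comm,
    abs_of_nonneg (by linarith)] at this
  simpa using this

def L1 (c : ℝ → ℝ) : Prop := ∀ a b, |c a - c b| ≤ |a - b|

theorem joined_of {f : NNReal → X} (hf : LipschitzWith 1 f) : Joined (f 0) (f 2) := by
  refine ⟨⟨⟨fun t => f (Real.toNNReal (2 * (t : ℝ))), ?_⟩, ?_, ?_⟩⟩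
  · exact hf.continuous.comp (continuous_real_toNNReal.comp (by fun_prop))
  · simp
  · simp

end Pool.Agent.H.MP_acfcdd_co
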