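import Pool.Agent.H.MP_acfcdd_co.A

set_option autoImplicit false

namespace Pool.Agent.H.MP_acfcdd_co

def x0 : X := ⟨⟨0, 2, i0, 0⟩, by norm_num, Or.inl ⟨rfl, rfl, Or.inr ⟨rfl, by norm_num, le_rfl⟩⟩⟩

def y0 : X := ⟨⟨0, 0, i0, 0⟩, le_rfl, Or.inl ⟨rfl, rfl, Or.inl (by norm_num)⟩⟩

noncomputable def AA (t : ℝ) : ℝ := if t ≤ 1 then t ^ 2 else 2 - (2 - t) ^ 2

noncomputable def cPt (c : ℝ → ℝ) (t : ℝ) : Pt := ⟨c (AA t), min t (2 - t), i0, 0⟩

theorem cPt_mem (c : ℝ → ℝ) {t : ℝ} (h0 : 0 ≤ t) (h2 : t ≤ 2) : Mem (cPt c t) := by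
  refine ⟨le_min h0 (by linarith), Or.inl ⟨rfl, rfl, Or.inl ?_⟩⟩
  show min t (2 - t) ≤ 3 / 2
  linarith [min_le_left t (2 - t), min_le_right t (2 - t)]

theorem cl0 (t : NNReal) : 0 ≤ min (t : ℝ) 2 := le_min t.2 (by norm_num)

noncomputable def cP (c : ℝ → ℝ) (t : NNReal) : X :=
  ⟨cPt c (min (t : ℝ) 2), cPt_mem c (cl0 t) (min_le_right _ _)⟩

theorem cl_mono {a b : NNReal} (h : a ≤ b) :
    min (a : ℝ) 2 ≤ min (b : ℝ) 2 ∧ min (b : ℝ) 2 - min (a : ℝ) 2 ≤ (b : ℝ) - a := by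
  have h' : (a : ℝ) ≤ b := h
  refine ⟨min_le_min h' le_rfl, ?_⟩
  rcases min_cases (a : ℝ) 2 with h1 | h1 <;> rcases min_cases (b : ℝ) 2 with h2 | h2 <;>
    linarith [h1.1, h1.2, h2.1, h2.2]

theorem dE_same (i : Idx) (h h' : ℝ) : dE i h i h' = |h - h'| := by simp [dE]

theorem cP_lip {c : ℝ → ℝ} (hc : L1 c) : LipschitzWith 1 (cP c) := by
  refine lip_of fun a b hab => ?_
  obtain ⟨h1, h2⟩ := cl_mono hab
  refine le_trans ?_ h2
  have h0 := cl0 a
  have h3 : min (b : ℝ) 2 ≤ 2 := min_le_right _ _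
  rw [dist_le_iff]
  simp only [cP, cPt, dE_same]
  generalize min (a : ℝ) 2 = s at *
  generalize min (b : ℝ) 2 = t at *
  have h4 := hc (AA s) (AA t)
  refine ⟨⟨?_, ?_⟩, by simp; linarith⟩
  · rcases min_cases s (2 - s) with h5 | h5 <;> rcases min_cases t (2 - t) with h6 | h6 <;>
      rw [h5.1, h6.1] <;> refine abs_le.2 ⟨?_, ?_⟩ <;> linarith [h5.2, h6.2]
  · unfold AA at h4 ⊢
    by_cases a1 : s ≤ 1 <;> by_cases a2 : t ≤ 1
    · simp only [if_pos a1, if_pos a2] at h4 ⊢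
      rw [min_eq_left (by linarith), min_eq_left (by linarith)]
      rw [abs_of_nonpos (a := s ^ 2 - t ^ 2) (by nlinarith)] at h4
      nlinarith
    · simp only [if_pos a1, if_neg a2] at h4 ⊢
      rw [min_eq_left (by linarith), min_eq_right (by linarith)]
      rw [abs_of_nonpos (a := s ^ 2 - (2 - (2 - t) ^ 2)) (by nlinarith)] at h4
      nlinarith
    · exfalso
      linarith
    · simp only [if_neg a1, if_neg a2] at h4 ⊢
      rw [min_eq_right (by linarith), min_eq_right (by linarith)]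
      rw [abs_of_nonpos (a := 2 - (2 - s) ^ 2 - (2 - (2 - t) ^ 2)) (by nlinarith)] at h4
      nlinarith

theorem cP_zero {c : ℝ → ℝ} (hc : c 0 = 0) : cP c 0 = y0 := by
  apply Subtype.ext
  simp [cP, cPt, y0, AA, hc]

theorem cP_agree {c c' : ℝ → ℝ} {r : ℝ} (h0 : 0 ≤ r) (hr : r ≤ 1)
    (h : ∀ a, a ≤ r ^ 2 → c a = c' a) : ∀ s ≤ r.toNNReal, cP c s = cP c' s := by
  intro s hs
  have h1 : (s : ℝ) ≤ r := by
    have : (s : ℝ) ≤ r.toNNReal := hs
    rwa [Real.coe_toNNReal _ h0] at this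
  apply Subtype.ext
  simp only [cP, cPt]
  rw [min_eq_left (by linarith : (s : ℝ) ≤ 2), AA, if_pos (by linarith), h]
  have := s.2
  have h2 : (0 : ℝ) ≤ s := s.2
  nlinarith

open Classical in
noncomputable def psi (i : Idx) (p : X) : ℝ := if p.1.i = i then p.1.h else -p.1.h

theorem psi_cont (i : Idx) : Continuous (psi i) := by
  refine (LipschitzWith.mk_one fun p q => ?_).continuous
  have h1 : dE p.1.i p.1.h q.1.i q.1.h ≤ dist p q := (dist_le_iff.1 le_rfl).2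
  refine le_trans ?_ h1
  have a1 := p.2.h_nonneg
  have a2 := q.2.h_nonneg
  rw [Real.dist_eq]
  unfold psi dE
  by_cases a : p.1.i = i <;> by_cases b : q.1.i = i <;> by_cases c : p.1.i = q.1.i
  · simp only [if_pos a, if_pos b, if_pos c, le_refl]
  · exact absurd (a.trans b.symm) c
  · exact absurd (c.symm.trans a) b
  · simp only [if_pos a, if_neg b, if_neg c]
    exact abs_le.2 ⟨by linarith, by linarith⟩
  · exact absurd (c.trans b) a
  · simp only [if_neg a, if_pos b, if_neg c]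
    exact abs_le.2 ⟨by linarith, by linarith⟩
  · simp only [if_neg a, if_neg b, if_pos c]
    rw [abs_sub_comm]
    exact le_of_eq (by congr 1; ring)
  · simp only [if_neg a, if_neg b, if_neg c]
    exact abs_le.2 ⟨by linarith, by linarith⟩

theorem stem {f : NNReal → X} (hf : LipschitzWith 1 f)
    (hu : ∀ t : ℝ, 0 ≤ t → t ≤ 1 → (f t.toNNReal).1.y = 2 - t) {t0 : ℝ} (h0 : 0 ≤ t0)
    (h1 : t0 ≤ 1) (hh : 0 < (f t0.toNNReal).1.h) {i : Idx} (hi : (f t0.toNNReal).1.i = i) {t : ℝ}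
    (ht : i.1 < t) (ht' : t < 2 - i.2.2) :
    (f t.toNNReal).1.i = i ∧ 0 < (f t.toNNReal).1.h := by
  obtain ⟨hv, b1, b2, -, b3⟩ := (f t0.toNNReal).2.stem hh
  rw [hi] at hv b1 b2 b3
  rw [hu t0 h0 h1] at b1 b2 b3
  let v : ℝ → ℝ := fun u => psi i (f u.toNNReal) - min (u - i.1) (2 - u - i.2.2) / 2
  have hv' : Continuous v := by
    have := (psi_cont i).comp (hf.continuous.comp continuous_real_toNNReal)
    exact Continuous.sub this (by fun_prop)
  have key : ∀ u, i.1 < u → u < 2 - i.2.2 →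
      (0 < v u ∧ (f u.toNNReal).1.i = i ∧ 0 < (f u.toNNReal).1.h) ∨ v u < 0 := by
    intro u a1 a2
    have a3 : 0 < min (u - i.1) (2 - u - i.2.2) := lt_min (by linarith) (by linarith)
    have a4 := (f u.toNNReal).2.h_nonneg
    by_cases a : (f u.toNNReal).1.i = i
    · rcases a4.lt_or_eq with a5 | a5
      · left
        obtain ⟨-, -, -, -, c3⟩ := (f u.toNNReal).2.stem a5
        rw [a, hu u (by linarith [hv.1]) (by linarith [hv.y_gt])] at c3
        refine ⟨?_, a, a5⟩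
        simp only [v, psi, if_pos a, c3]
        rw [show 2 - (2 - u) - i.1 = u - i.1 by ring]
        linarith
      · right
        simp only [v, psi, if_pos a]
        linarith
    · right
      simp only [v, psi, if_neg a]
      linarith
  have p0 : 0 < v t0 := by
    simp only [v, psi, if_pos hi]
    rw [b3, show 2 - (2 - t0) - i.1 = t0 - i.1 by ring]
    have : 0 < min (t0 - i.1) (2 - t0 - i.2.2) := lt_min (by linarith) (by linarith)
    linarith
  rcases key t ht ht' with h | h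
  · exact h.2
  · exfalso
    have hc : IsPreconnected (Set.Ioo i.1 (2 - i.2.2)) := isPreconnected_Ioo
    obtain ⟨u, hu1, hu2⟩ := hc.intermediate_value (a := t) (b := t0) ⟨ht, ht'⟩
      ⟨by linarith, by linarith⟩ hv'.continuousOn (show (0 : ℝ) ∈ Set.Icc (v t) (v t0) from
        ⟨h.le, p0.le⟩)
    rcases key u hu1.1 hu1.2 with h | h
    · linarith [h.1]
    · linarith

theorem chi_late {i : Idx} (hi : Valid i) {t : ℝ} (ht : 1 / 2 ≤ t) (ht2 : t ≤ 2) :
    chi i (bb t) = i.2.1 := by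
  obtain ⟨h1, h2, h3, -⟩ := hi
  have h4 : 1 / 2 ≤ bb t - bb i.1 := by
    unfold bb
    nlinarith
  have h5 := abs_le.1 h3
  unfold chi
  rw [max_eq_right (show 0 ≤ bb t - bb i.1 by linarith), min_eq_left (by linarith),
    max_eq_right (by linarith)]

theorem cap {f : NNReal → X} (hf : LipschitzWith 1 f) (hf0 : f 0 = x0) {c : ℝ → ℝ}
    (hc : ∃ t ≤ (2 : NNReal), f t = cP c t) :
    ∃ i, Valid i ∧
      (∀ t : ℝ, i.1 < t → t < 2 - i.2.2 → (f t.toNNReal).1.i = i ∧ 0 < (f t.toNNReal).1.h) ∧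
      (∀ t : ℝ, 0 ≤ t → t ≤ 1 → 0 < (f t.toNNReal).1.h → (f t.toNNReal).1.i = i) ∧
      ∃ z : ℝ, |c (2 - z ^ 2) - i.2.1| ≤ i.2.2 ^ 2 - z ^ 2 := by
  obtain ⟨T, hT, hfT⟩ := hc
  have hT2 : (T : ℝ) ≤ 2 := hT
  have hT0 : (0 : ℝ) ≤ T := T.2
  have hyT : (f (T : ℝ).toNNReal).1.y = min (T : ℝ) (2 - T) := by
    rw [Real.toNNReal_coe, hfT]
    simp only [cP, cPt, min_eq_left hT2]
  have low : ∀ t : ℝ, 0 ≤ t → 2 - t ≤ (f t.toNNReal).1.y := by
    intro t ht
    have h1 := (dist_le_iff.1 (lip_real hf le_rfl ht)).1.1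
    rw [Real.toNNReal_zero, hf0] at h1
    have h2 := (abs_le.1 h1).2
    simp only [x0] at h2
    linarith
  have hT1 : (1 : ℝ) ≤ T := by
    have := low T hT0
    rw [hyT] at this
    linarith [min_le_left (T : ℝ) (2 - T)]
  rw [min_eq_right (by linarith)] at hyT
  have hu : ∀ t : ℝ, 0 ≤ t → t ≤ 1 → (f t.toNNReal).1.y = 2 - t := by
    intro t h0 h1
    have h2 := (dist_le_iff.1 (lip_real hf h0 (h1.trans hT1))).1.1
    rw [hyT] at h2
    have h3 := (abs_le.1 h2).2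
    linarith [low t h0]
  have hh : 0 < (f (3 / 8 : ℝ).toNNReal).1.h := by
    have h1 := hu (3 / 8) (by norm_num) (by norm_num)
    rcases (f (3 / 8 : ℝ).toNNReal).2.2 with h | h
    · exfalso
      rcases h.2.2 with h2 | h2
      · linarith
      · linarith [h2.2.1]
    · rw [h.2.2.2.2]
      exact lt_min (by linarith [h.2.1]) (by linarith [h.2.2.1])
  obtain ⟨i, hi⟩ : ∃ i, (f (3 / 8 : ℝ).toNNReal).1.i = i := ⟨_, rfl⟩
  have hv : Valid i := hi ▸ ((f (3 / 8 : ℝ).toNNReal).2.stem hh).1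
  have st : ∀ t : ℝ, i.1 < t → t < 2 - i.2.2 →
      (f t.toNNReal).1.i = i ∧ 0 < (f t.toNNReal).1.h :=
    fun t a b => stem hf hu (by norm_num) (by norm_num) hh hi a b
  refine ⟨i, hv, st, ?_, 2 - T, ?_⟩
  · intro t h0 h1 h2
    have hv2 := ((f t.toNNReal).2.stem h2).1
    have := stem hf hu h0 h1 h2 rfl (t := 3 / 8) (by linarith [hv2.2.1]) (by linarith [hv2.y_lt])
    rw [← this.1, hi]
  · have hx : (f (T : ℝ).toNNReal).1.x = c (2 - (2 - T) ^ 2) := by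
      rw [Real.toNNReal_coe, hfT]
      simp only [cP, cPt, min_eq_left hT2, AA]
      split_ifs with h
      · rw [le_antisymm h hT1]
        norm_num
      · rfl
    have hb : ∀ t : ℝ, 1 / 2 ≤ t → t < 2 - i.2.2 →
        |c (2 - (2 - T) ^ 2) - i.2.1| + (2 - T) ^ 2 ≤ (2 - t) ^ 2 := by
      intro t a b
      have a1 : t ≤ 1 := by linarith [hv.y_gt]
      obtain ⟨s1, s2⟩ := st t (by linarith [hv.2.1]) b
      have s3 := ((f t.toNNReal).2.stem s2).2.2.2.1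
      rw [s1, hu t (by linarith) a1, show 2 - (2 - t) = t by ring,
        chi_late hv a (by linarith)] at s3
      have s4 := (dist_le_iff.1 (lip_real hf (show 0 ≤ t by linarith) (a1.trans hT1))).1.2
      rw [hyT, hx, s3, hu t (by linarith) a1, abs_sub_comm] at s4
      nlinarith
    by_contra hcon
    push Not at hcon
    have g1 := hv.y_gt
    have g2 := hv.y_lt
    set D := |c (2 - (2 - T) ^ 2) - i.2.1| + (2 - T) ^ 2 - i.2.2 ^ 2 with hD
    have hD0 : 0 < D := by linarith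
    have e0 : 0 < min (3 / 2 - i.2.2) (D / 4) := lt_min (by linarith) (by linarith)
    have e1 := min_le_left (3 / 2 - i.2.2) (D / 4)
    have e2 := min_le_right (3 / 2 - i.2.2) (D / 4)
    set e := min (3 / 2 - i.2.2) (D / 4)
    have := hb (2 - i.2.2 - e) (by linarith) (by linarith)
    nlinarith

theorem no_lion : ¬ ∃ Ψ : (NNReal → X) → (NNReal → X),
    (∀ g : NNReal → X, LipschitzWith 1 g → g 0 = y0 →
      LipschitzWith 1 (Ψ g) ∧ Ψ g 0 = x0) ∧
    (∀ g g' : NNReal → X, LipschitzWith 1 g → g 0 = y0 →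
      LipschitzWith 1 g' → g' 0 = y0 →
      ∀ t : NNReal, (∀ s ≤ t, g s = g' s) → Ψ g t = Ψ g' t) ∧
    (∀ g : NNReal → X, LipschitzWith 1 g → g 0 = y0 →
      ∃ t ≤ (2 : NNReal), Ψ g t = g t) := by
  rintro ⟨Ψ, h1, h2, h3⟩
  have l0 : L1 fun a => a := fun a b => le_rfl
  have a0 := cP_lip l0
  have b0 : cP (fun a => a) 0 = y0 := cP_zero rfl
  obtain ⟨i, hi, -, ui, -⟩ := cap (h1 _ a0 b0).1 (h1 _ a0 b0).2 (h3 _ a0 b0)
  obtain ⟨q, hq0, hq1⟩ := exists_rat_btwn hi.1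
  obtain ⟨s, hs⟩ : ∃ s : ℝ, s = q := ⟨_, rfl⟩
  rw [← hs] at hq0 hq1
  have hs4 : s < 1 / 4 := by linarith [hi.2.1]
  let c1 : ℝ → ℝ := fun a => min a (2 * s ^ 2 - a)
  have l1 : L1 c1 := by
    intro a b
    have := le_abs_self (a - b)
    have := neg_abs_le (a - b)
    simp only [c1]
    rcases min_cases a (2 * s ^ 2 - a) with h5 | h5 <;>
      rcases min_cases b (2 * s ^ 2 - b) with h6 | h6 <;>
      rw [h5.1, h6.1] <;> refine abs_le.2 ⟨?_, ?_⟩ <;> linarith [h5.2, h6.2]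
  have a1 := cP_lip l1
  have b1 : cP c1 0 = y0 := cP_zero (min_eq_left (by nlinarith))
  obtain ⟨j, hj, sj, -, z1, hz1⟩ := cap (h1 _ a1 b1).1 (h1 _ a1 b1).2 (h3 _ a1 b1)
  have hsj : s ≤ j.1 := by
    by_contra hcon
    push Not at hcon
    obtain ⟨e1, e2⟩ := sj s hcon (by linarith [hj.y_lt])
    have e3 : Ψ (cP c1) s.toNNReal = Ψ (cP fun a => a) s.toNNReal :=
      h2 _ _ a1 b1 a0 b0 _ (cP_agree hq0.le (by linarith) fun a ha =>
        min_eq_left (by linarith))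
    rw [e3] at e1 e2
    have e4 := ui s hq0.le (by linarith) e2
    rw [e1] at e4
    rw [e4] at hcon
    linarith
  have k1 : j.2.1 + j.1 ^ 2 ≤ 2 * s ^ 2 := by
    have e1 := (abs_le.1 hz1).1
    have e2 : c1 (2 - z1 ^ 2) ≤ 2 * s ^ 2 - (2 - z1 ^ 2) := min_le_right _ _
    linarith [hj.2.2.2.2.1]
  have k2 : j.2.1 + j.1 ^ 2 ≠ 2 * s ^ 2 := by
    intro e
    rcases hj.2.2.2.2.2 with h | h
    · nlinarith
    · rw [e, hs] at h
      exact h ⟨2 * q ^ 2, by push_cast; ring⟩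
  set D := 2 * s ^ 2 - (j.2.1 + j.1 ^ 2) with hD
  have hD0 : 0 < D := by
    have := lt_of_le_of_ne k1 k2
    linarith
  have e0 : 0 < min (1 / 8) (D / 4) := lt_min (by norm_num) (by linarith)
  have e1 := min_le_left (1 / 8) (D / 4)
  have e2 := min_le_right (1 / 8) (D / 4)
  set e := min (1 / 8) (D / 4)
  have j1 := hj.1
  have j2 := hj.2.1
  let c2 : ℝ → ℝ := fun a => max (c1 a) (a + 2 * s ^ 2 - 2 * (j.1 + e) ^ 2)
  have l2 : L1 c2 := by
    intro a b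
    have := le_abs_self (a - b)
    have := neg_abs_le (a - b)
    have h7 := abs_le.1 (l1 a b)
    simp only [c2]
    rcases max_cases (c1 a) (a + 2 * s ^ 2 - 2 * (j.1 + e) ^ 2) with h5 | h5 <;>
      rcases max_cases (c1 b) (b + 2 * s ^ 2 - 2 * (j.1 + e) ^ 2) with h6 | h6 <;>
      rw [h5.1, h6.1] <;> refine abs_le.2 ⟨?_, ?_⟩ <;> linarith [h5.2, h6.2, h7.1, h7.2]
  have ag : ∀ a, a ≤ (j.1 + e) ^ 2 → c2 a = c1 a := by
    intro a ha
    refine max_eq_left (le_min ?_ ?_)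
    · nlinarith
    · linarith
  have a2 := cP_lip l2
  have b2 : cP c2 0 = y0 := cP_zero (by
    rw [ag 0 (sq_nonneg _)]
    exact min_eq_left (by nlinarith))
  obtain ⟨k, hk, -, uk, z2, hz2⟩ := cap (h1 _ a2 b2).1 (h1 _ a2 b2).2 (h3 _ a2 b2)
  obtain ⟨m1, m2⟩ := sj (j.1 + e) (by linarith) (by linarith [hj.y_lt])
  have m3 : Ψ (cP c2) (j.1 + e).toNNReal = Ψ (cP c1) (j.1 + e).toNNReal :=
    h2 _ _ a2 b2 a1 b1 _ (cP_agree (by linarith) (by linarith) ag)
  rw [← m3] at m1 m2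
  have m4 := uk (j.1 + e) (by linarith) (by linarith) m2
  rw [m1] at m4
  rw [← m4] at hz2
  have m5 := (abs_le.1 hz2).2
  have m6 : 2 - z2 ^ 2 + 2 * s ^ 2 - 2 * (j.1 + e) ^ 2 ≤ c2 (2 - z2 ^ 2) := le_max_right _ _
  have m7 := hj.2.2.2.2.1
  nlinarith

end Pool.Agent.H.MP_acfcdd_co
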