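import Pool.Agent.H.MP_acfcdd_co.B

set_option autoImplicit false

namespace Pool.Agent.H.MP_acfcdd_co

open Filter Topology

noncomputable def HH (i : Idx) (t : ℝ) : ℝ := max 0 (min (t - i.1) (2 - t - i.2.2))

noncomputable def lPt (i : Idx) (c : ℝ → ℝ) (t : ℝ) : Pt :=
  ⟨c (bb t), 2 - t, if 0 < HH i t then i else i0, HH i t⟩

def Adm (i : Idx) (c : ℝ → ℝ) : Prop := L1 c ∧ ∀ b ≤ bb (2 - i.2.2), c b = chi i b

theorem bb_mono {s t : ℝ} (h : s ≤ t) (h2 : t ≤ 2) : bb s ≤ bb t := by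
  unfold bb
  nlinarith

theorem chi_early {i : Idx} {t : ℝ} (ht : t ≤ i.1) (h2 : i.1 ≤ 2) : chi i (bb t) = 0 := by
  have := bb_mono ht h2
  unfold chi
  rw [max_eq_left (show bb t - bb i.1 ≤ 0 by linarith), neg_zero]
  exact max_eq_left (min_le_right _ _)

theorem chi_L1 (i : Idx) : L1 (chi i) := by
  intro a b
  unfold chi
  have h1 : |max 0 (a - bb i.1) - max 0 (b - bb i.1)| ≤ |a - b| := by
    refine le_trans (abs_max_sub_max_le_max _ _ _ _) (max_le (by simp) (le_of_eq ?_))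
    congr 1
    ring
  refine le_trans (abs_max_sub_max_le_max _ _ _ _) (max_le ?_ ?_)
  · rw [abs_sub_comm] at h1
    refine le_trans (le_of_eq ?_) h1
    congr 1
    ring
  · exact le_trans (abs_min_sub_min_le_max _ _ _ _) (max_le (by simp) h1)

theorem lPt_mem {i : Idx} (hi : Valid i) {c : ℝ → ℝ} (hc : Adm i c) {t : ℝ} (h0 : 0 ≤ t)
    (h2 : t ≤ 2) : Mem (lPt i c t) := by
  refine ⟨show 0 ≤ 2 - t by linarith, ?_⟩
  have g1 := hi.y_gt
  have g2 := hi.y_lt
  by_cases h : 0 < HH i t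
  · right
    have h3 : 0 < min (t - i.1) (2 - t - i.2.2) := by
      unfold HH at h
      rcases lt_max_iff.1 h with h | h
      · exact absurd h (lt_irrefl _)
      · exact h
    have h4 := lt_min_iff.1 h3
    simp only [lPt, if_pos h]
    rw [show 2 - (2 - t) = t by ring]
    refine ⟨hi, by linarith [h4.1], by linarith [h4.2], ?_, max_eq_right h3.le⟩
    exact hc.2 _ (bb_mono (by linarith [h4.2]) (by linarith))
  · left
    have h3 : HH i t = 0 := le_antisymm (not_lt.1 h) (le_max_left _ _)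
    simp only [lPt, if_neg h]
    refine ⟨h3, trivial, ?_⟩
    have h4 : min (t - i.1) (2 - t - i.2.2) ≤ 0 := le_trans (le_max_right 0 _) h3.le
    rcases min_le_iff.1 h4 with h5 | h5
    · right
      have := hi.2.1
      refine ⟨?_, by linarith, by linarith⟩
      rw [hc.2 _ (bb_mono (by linarith) (by linarith))]
      exact chi_early (by linarith) (by linarith)
    · left
      linarith

noncomputable def lP {i : Idx} (hi : Valid i) (c : {c // Adm i c}) (t : NNReal) : X :=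
  ⟨lPt i c.1 (min (t : ℝ) 2), lPt_mem hi c.2 (cl0 t) (min_le_right _ _)⟩

theorem lP_lip {i : Idx} (hi : Valid i) (c : {c // Adm i c}) : LipschitzWith 1 (lP hi c) := by
  refine lip_of fun a b hab => ?_
  obtain ⟨h1, h2⟩ := cl_mono hab
  refine le_trans ?_ h2
  have h0 := cl0 a
  have h3 : min (b : ℝ) 2 ≤ 2 := min_le_right _ _
  rw [dist_le_iff]
  simp only [lP, lPt]
  generalize min (a : ℝ) 2 = s at *
  generalize min (b : ℝ) 2 = t at *
  have h4 := c.2.1 (bb s) (bb t)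
  have h5 := bb_mono h1 h3
  rw [abs_of_nonpos (a := bb s - bb t) (by linarith)] at h4
  refine ⟨⟨abs_le.2 ⟨by linarith, by linarith⟩, ?_⟩, ?_⟩
  · unfold bb at h4 ⊢
    nlinarith
  · have h6 : |HH i s - HH i t| ≤ t - s := by
      unfold HH
      refine le_trans (abs_max_sub_max_le_max _ _ _ _) (max_le (by simp; linarith) ?_)
      refine le_trans (abs_min_sub_min_le_max _ _ _ _) (max_le ?_ ?_) <;>
        exact abs_le.2 ⟨by linarith, by linarith⟩
    have h7 := abs_le.1 h6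
    have h8 : 0 ≤ HH i s := le_max_left _ _
    have h9 : 0 ≤ HH i t := le_max_left _ _
    unfold dE
    by_cases a1 : 0 < HH i s <;> by_cases a2 : 0 < HH i t <;> simp only [a1, a2, if_true, if_false]
    · exact h6
    · split_ifs
      · exact h6
      · linarith [not_lt.1 a2]
    · split_ifs
      · exact h6
      · linarith [not_lt.1 a1]
    · exact h6

theorem lP_early {i : Idx} (hi : Valid i) (c : {c // Adm i c}) {t : NNReal} (ht : (t : ℝ) ≤ i.1) :
    (lP hi c t).1 = ⟨0, 2 - t, i0, 0⟩ := by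
  have g1 := hi.y_lt
  have g2 := hi.2.1
  have h1 : HH i t = 0 := max_eq_left (le_trans (min_le_left _ _) (by linarith))
  simp only [lP, lPt]
  rw [min_eq_left (by linarith : (t : ℝ) ≤ 2), h1, if_neg (lt_irrefl _),
    c.2.2 _ (bb_mono (by linarith) (by linarith [hi.y_gt])), chi_early ht (by linarith)]

theorem lP_late {i : Idx} (hi : Valid i) (c : {c // Adm i c}) {t : ℝ} (ht : 2 - i.2.2 ≤ t)
    (h2 : t ≤ 2) : (lP hi c t.toNNReal).1 = ⟨c.1 (bb t), 2 - t, i0, 0⟩ := by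
  have g1 := hi.y_lt
  have h1 : HH i t = 0 := max_eq_left (le_trans (min_le_right _ _) (by linarith))
  simp only [lP, lPt]
  rw [Real.coe_toNNReal _ (by linarith), min_eq_left h2, h1, if_neg (lt_irrefl _)]

theorem lP_zero {i : Idx} (hi : Valid i) (c : {c // Adm i c}) : lP hi c 0 = x0 := by
  apply Subtype.ext
  rw [lP_early hi c (by simpa using hi.1.le)]
  simp [x0]

theorem lP_agree {i : Idx} (hi : Valid i) {c c' : {c // Adm i c}} {r : ℝ} (h0 : 0 ≤ r)
    (hr : r ≤ 2) (h : ∀ b ≤ bb r, c.1 b = c'.1 b) : ∀ s ≤ r.toNNReal, lP hi c s = lP hi c' s := by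
  intro s hs
  have h1 : (s : ℝ) ≤ r := by
    have : (s : ℝ) ≤ r.toNNReal := hs
    rwa [Real.coe_toNNReal _ h0] at this
  apply Subtype.ext
  simp only [lP, lPt]
  rw [min_eq_left (by linarith : (s : ℝ) ≤ 2), h _ (bb_mono h1 hr)]

noncomputable def f0 (t : NNReal) : X :=
  ⟨⟨0, 2 - min (t : ℝ) (1 / 4), i0, 0⟩, by
    have h1 := min_le_right (t : ℝ) (1 / 4)
    have h2 : 0 ≤ min (t : ℝ) (1 / 4) := le_min t.2 (by norm_num)
    exact ⟨show 0 ≤ 2 - min (t : ℝ) (1 / 4) by linarith, Or.inl ⟨rfl, rfl, Or.inr ⟨rfl,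
      show 7 / 4 ≤ 2 - min (t : ℝ) (1 / 4) by linarith,
      show 2 - min (t : ℝ) (1 / 4) ≤ 2 by linarith⟩⟩⟩⟩

theorem f0_lip : LipschitzWith 1 f0 := by
  refine lip_of fun a b hab => ?_
  have h' : (a : ℝ) ≤ b := hab
  have h1 : min (a : ℝ) (1 / 4) ≤ min (b : ℝ) (1 / 4) := min_le_min h' le_rfl
  have h2 : min (b : ℝ) (1 / 4) - min (a : ℝ) (1 / 4) ≤ (b : ℝ) - a := by
    rcases min_cases (a : ℝ) (1 / 4) with h1 | h1 <;>
      rcases min_cases (b : ℝ) (1 / 4) with h2 | h2 <;> linarith [h1.1, h1.2, h2.1, h2.2]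
  refine le_trans ?_ h2
  have h3 := min_le_right (b : ℝ) (1 / 4)
  rw [dist_le_iff]
  simp only [f0, dE_same]
  generalize min (a : ℝ) (1 / 4) = s at *
  generalize min (b : ℝ) (1 / 4) = t at *
  refine ⟨⟨abs_le.2 ⟨by linarith, by linarith⟩, ?_⟩, by simp; linarith⟩
  simp only [sub_self, abs_zero]
  nlinarith

theorem f0_zero : f0 0 = x0 := by
  apply Subtype.ext
  simp [f0, x0]

theorem chr_y {g : NNReal → X} (hg : LipschitzWith 1 g) (hg0 : g 0 = y0) {t : ℝ} (ht : 0 ≤ t) :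
    (g t.toNNReal).1.y ≤ t ∧ |(g t.toNNReal).1.x| ≤ t ^ 2 := by
  obtain ⟨⟨h1, h2⟩, -⟩ := dist_le_iff.1 (lip_real hg le_rfl ht)
  rw [Real.toNNReal_zero, hg0] at h1 h2
  simp only [y0] at h1 h2
  refine ⟨by linarith [(abs_le.1 h1).1], ?_⟩
  rw [zero_sub, abs_neg] at h2
  nlinarith [sq_nonneg ((g t.toNNReal).1.y - t)]

theorem depart {g : NNReal → X} (hg : LipschitzWith 1 g) (hg0 : g 0 = y0) :
    ∃ i, Valid i ∧ |(g i.1.toNNReal).1.x - i.2.1| ≤ i.1 - (g i.1.toNNReal).1.y := by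
  have mk : ∀ s x : ℝ, 0 < s → s ≤ 1 / 4 → |(g s.toNNReal).1.x - x| ≤ s - (g s.toNNReal).1.y →
      (x + s ^ 2 = 0 ∨ Irrational (x + s ^ 2)) →
      ∃ i, Valid i ∧ |(g i.1.toNNReal).1.x - i.2.1| ≤ i.1 - (g i.1.toNNReal).1.y := by
    intro s x h1 h2 h3 h4
    have h5 : 0 < 2 - s ^ 2 := by nlinarith
    refine ⟨(s, x, Real.sqrt (2 - s ^ 2)), ⟨h1, h2, ?_, Real.sqrt_pos.2 h5, ?_, h4⟩, h3⟩
    · have a1 := abs_le.1 (chr_y hg hg0 h1.le).2
      have a2 := abs_le.1 h3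
      have a3 := (g s.toNNReal).2.1
      exact abs_le.2 ⟨by nlinarith, by nlinarith⟩
    · show Real.sqrt (2 - s ^ 2) ^ 2 + s ^ 2 = 2
      rw [Real.sq_sqrt h5.le]
      ring
  by_contra hcon
  have h1 : ∀ s : ℝ, 0 < s → s ≤ 1 / 4 → ¬ ((g s.toNNReal).1.x + s ^ 2 = 0 ∨
      Irrational ((g s.toNNReal).1.x + s ^ 2)) := by
    intro s a b c
    refine hcon (mk s _ a b ?_ c)
    have := (chr_y hg hg0 a.le).1
    simp only [sub_self, abs_zero]
    linarith
  have hx : ContinuousOn (fun s : ℝ => (g s.toNNReal).1.x + s ^ 2) (Set.Icc 0 (1 / 4)) := by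
    refine ContinuousOn.add ?_ (by fun_prop)
    refine LipschitzOnWith.continuousOn (K := 1) (LipschitzOnWith.of_dist_le_mul ?_)
    have key : ∀ s t : ℝ, 0 ≤ s → s ≤ t → t ≤ 1 / 4 →
        |(g s.toNNReal).1.x - (g t.toNNReal).1.x| ≤ t - s := by
      intro s t a b c
      obtain ⟨⟨-, h2⟩, -⟩ := dist_le_iff.1 (lip_real hg a b)
      have a1 := (chr_y hg hg0 a).1
      have a2 := (chr_y hg hg0 (a.trans b)).1
      have a3 : (t - s) * ((g s.toNNReal).1.y + (g t.toNNReal).1.y + (t - s) / 2) ≤ (t - s) * 1 :=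
        mul_le_mul_of_nonneg_left (by linarith) (by linarith)
      nlinarith [sq_nonneg ((g s.toNNReal).1.y - (g t.toNNReal).1.y)]
    intro s hs t ht
    simp only [Real.dist_eq, NNReal.coe_one, one_mul]
    rcases le_total s t with h | h
    · refine le_trans (key s t hs.1 h ht.2) ?_
      rw [abs_sub_comm]
      exact le_abs_self _
    · rw [abs_sub_comm]
      exact le_trans (key t s ht.1 h hs.2) (le_abs_self _)
  have h0 : (g (0 : ℝ).toNNReal).1.x + (0 : ℝ) ^ 2 = 0 := by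
    rw [Real.toNNReal_zero, hg0]
    simp [y0]
  have fin : ∀ r : ℝ, Irrational r → ∀ s ∈ Set.Icc (0 : ℝ) (1 / 4),
      (g s.toNNReal).1.x + s ^ 2 ≠ r := by
    intro r hr s hs e
    rcases hs.1.lt_or_eq with h | h
    · exact h1 s h hs.2 (Or.inr (e ▸ hr))
    · rw [← h, h0] at e
      exact hr ⟨0, by simpa using e⟩
  have h4 : (g (1 / 4 : ℝ).toNNReal).1.x + (1 / 4 : ℝ) ^ 2 ≠ 0 := fun e =>
    h1 (1 / 4) (by norm_num) le_rfl (Or.inl e)
  rcases lt_or_gt_of_ne h4 with h | h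
  · obtain ⟨r, hr, r1, r2⟩ := exists_irrational_btwn h
    obtain ⟨s, hs, e⟩ := intermediate_value_Icc' (by norm_num) hx
      (show r ∈ Set.Icc _ _ from ⟨r1.le, le_trans r2.le h0.ge⟩)
    exact fin r hr s hs e
  · obtain ⟨r, hr, r1, r2⟩ := exists_irrational_btwn h
    obtain ⟨s, hs, e⟩ := intermediate_value_Icc (by norm_num) hx
      (show r ∈ Set.Icc _ _ from ⟨le_trans h0.le r1.le, r2.le⟩)
    exact fin r hr s hs e

end Pool.Agent.H.MP_acfcdd_co
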