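import Pool.Agent.H.MP_acfcdd_co.C

set_option autoImplicit false

namespace Pool.Agent.H.MP_acfcdd_co

open Filter Topology

theorem step_ineq {Y c b u e d : ℝ} (hc : 0 ≤ c) (hY : Y ≤ 2) (hcY : c ≤ Y)
    (hu : u = (Y - c) ^ 2 / 100) (he : 0 ≤ e) (he' : e ≤ (Y - c) ^ 2 / 2) (h1 : |c - b| ≤ u)
    (h2 : |d| + c ^ 2 + b ^ 2 ≤ (c + b + u) ^ 2 / 2) :
    b ≤ Y - u ∧ |e + d - (Y ^ 2 - (Y - u) ^ 2)| ≤ (Y - u - b) ^ 2 / 2 := by
  have g0 : 0 ≤ Y - c := by linarith
  have g1 : u ≤ (Y - c) / 50 := by nlinarith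
  have g2 : 0 ≤ u := by rw [hu]; positivity
  obtain ⟨a1, a2⟩ := abs_le.1 h1
  have a3 := le_abs_self d
  have a4 := neg_abs_le d
  have a5 : b ≤ Y - u := by linarith
  refine ⟨a5, abs_le.2 ⟨?_, ?_⟩⟩
  · have b1 : (Y - c) / 2 ≤ Y - u - b := by linarith
    have b2 : ((Y - c) / 2) ^ 2 ≤ (Y - u - b) ^ 2 := pow_le_pow_left₀ (by linarith) b1 2
    have b3 : u * (c + b + u / 2) ≤ u * 5 := mul_le_mul_of_nonneg_left (by linarith) g2
    have b4 : u * Y ≤ u * 2 := mul_le_mul_of_nonneg_left hY g2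
    nlinarith [sq_nonneg (c - b), sq_nonneg u]
  · have b1 : 0 ≤ (c + u - b) * (Y - u - b) := mul_nonneg (by linarith) (by linarith)
    nlinarith

theorem init_ineq {s z y y' x x' w : ℝ} (hs : s ≤ 1 / 4) (hz : z ^ 2 + s ^ 2 = 2) (hz1 : 4 / 3 < z)
    (hys : y ≤ s) (h0 : |x - w| ≤ s - y) (h1 : |y - y'| ≤ 2 - z - s)
    (h2 : |x - x'| + y ^ 2 + y' ^ 2 ≤ (y + y' + (2 - z - s)) ^ 2 / 2) :
    y' ≤ z ∧ |x' - w| ≤ (z - y') ^ 2 / 2 := by
  obtain ⟨a1, a2⟩ := abs_le.1 h1
  have a3 : y' ≤ z := by linarith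
  refine ⟨a3, ?_⟩
  have a4 := abs_sub_le x' x w
  rw [abs_sub_comm x' x] at a4
  have b1 : 0 ≤ (y + (2 - z - s) - y') * (z - y') := mul_nonneg (by linarith) (by linarith)
  have b2 : 0 ≤ (s - y) * (1 - s - (y + s) / 2) := mul_nonneg (by linarith) (by linarith)
  nlinarith

theorem no_christian : ¬ ∃ Φ : (NNReal → X) → (NNReal → X),
    (∀ f : NNReal → X, LipschitzWith 1 f → f 0 = x0 →
      LipschitzWith 1 (Φ f) ∧ Φ f 0 = y0) ∧
    (∀ f f' : NNReal → X, LipschitzWith 1 f → f 0 = x0 →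
      LipschitzWith 1 f' → f' 0 = x0 →
      ∀ t : NNReal, (∀ s ≤ t, f s = f' s) → Φ f t = Φ f' t) ∧
    (∀ f : NNReal → X, LipschitzWith 1 f → f 0 = x0 →
      ∀ t ≤ (2 : NNReal), Φ f t ≠ f t) := by
  rintro ⟨Φ, h1, h2, h3⟩
  obtain ⟨i, hi, hd⟩ := depart (h1 _ f0_lip f0_zero).1 (h1 _ f0_lip f0_zero).2
  have g1 := hi.y_gt
  have g2 := hi.y_lt
  have g3 := hi.1
  have g4 := hi.2.1
  have gl : ∀ c, LipschitzWith 1 (Φ (lP hi c)) := fun c => (h1 _ (lP_lip hi c) (lP_zero hi c)).1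
  have gz : ∀ c, Φ (lP hi c) 0 = y0 := fun c => (h1 _ (lP_lip hi c) (lP_zero hi c)).2
  have ga : ∀ (c c' : {c // Adm i c}) (r : ℝ), 0 ≤ r → r ≤ 2 → (∀ b ≤ bb r, c.1 b = c'.1 b) →
      Φ (lP hi c) r.toNNReal = Φ (lP hi c') r.toNNReal := fun c c' r a b h =>
    h2 _ _ (lP_lip hi c) (lP_zero hi c) (lP_lip hi c') (lP_zero hi c') _ (lP_agree hi a b h)
  let G : {c // Adm i c} → ℝ → Pt := fun c t => (Φ (lP hi c) t.toNNReal).1
  let Inv : {c // Adm i c} → ℝ → Prop := fun c t => 2 - i.2.2 ≤ t ∧ t ≤ 2 ∧ (G c t).y ≤ 2 - t ∧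
    |(G c t).x - c.1 (bb t)| ≤ (2 - t - (G c t).y) ^ 2 / 2
  have init : Inv ⟨chi i, chi_L1 i, fun _ _ => rfl⟩ (2 - i.2.2) := by
    set c0 : {c // Adm i c} := ⟨chi i, chi_L1 i, fun _ _ => rfl⟩ with hc0
    have e1 : Φ f0 i.1.toNNReal = Φ (lP hi c0) i.1.toNNReal := by
      refine h2 _ _ f0_lip f0_zero (lP_lip hi c0) (lP_zero hi c0) _ fun s hs => ?_
      have a1 : (s : ℝ) ≤ i.1 := by
        have : (s : ℝ) ≤ i.1.toNNReal := hs
        rwa [Real.coe_toNNReal _ g3.le] at this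
      apply Subtype.ext
      rw [lP_early hi c0 a1]
      simp only [f0]
      rw [min_eq_left (by linarith)]
    rw [e1] at hd
    obtain ⟨⟨a1, a2⟩, -⟩ := dist_le_iff.1 (lip_real (gl c0) g3.le
      (show i.1 ≤ 2 - i.2.2 by linarith))
    obtain ⟨b1, b2⟩ := init_ineq g4 hi.2.2.2.2.1 g1 (chr_y (gl c0) (gz c0) g3.le).1 hd a1 a2
    refine ⟨le_rfl, by linarith, ?_, ?_⟩
    · show (Φ (lP hi c0) (2 - i.2.2).toNNReal).1.y ≤ 2 - (2 - i.2.2)
      linarith
    · show |(Φ (lP hi c0) (2 - i.2.2).toNNReal).1.x - chi i (bb (2 - i.2.2))| ≤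
        (2 - (2 - i.2.2) - (Φ (lP hi c0) (2 - i.2.2).toNNReal).1.y) ^ 2 / 2
      rw [chi_late hi (by linarith) (by linarith), show 2 - (2 - i.2.2) = i.2.2 by ring]
      exact b2
  have close : ∀ c t, Inv c t →
      dist (lP hi c t.toNNReal) (Φ (lP hi c) t.toNNReal) ≤ 2 * (2 - t - (G c t).y) := by
    rintro c t ⟨a1, a2, a3, a4⟩
    have a5 : (G c t).y ≤ t := (chr_y (gl c) (gz c) (show 0 ≤ t by linarith)).1
    have a6 : 0 ≤ (G c t).y := (Φ (lP hi c) t.toNNReal).2.1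
    obtain ⟨a7, a8⟩ := (Φ (lP hi c) t.toNNReal).2.h_zero (show (G c t).y ≤ 1 by linarith)
    rw [dist_le_iff, lP_late hi c a1 a2, a7, a8, dE_same]
    refine ⟨⟨?_, ?_⟩, ?_⟩
    · show |2 - t - (G c t).y| ≤ _
      exact abs_le.2 ⟨by linarith, by linarith⟩
    · show |c.1 (bb t) - (G c t).x| + (2 - t) ^ 2 + (G c t).y ^ 2 ≤
        (2 - t + (G c t).y + 2 * (2 - t - (G c t).y)) ^ 2 / 2
      rw [abs_sub_comm]
      have : 0 ≤ (2 - t + (G c t).y) * (2 - t - (G c t).y) :=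
        mul_nonneg (by linarith) (by linarith)
      nlinarith
    · show |(0 : ℝ) - 0| ≤ _
      rw [sub_self, abs_zero]
      linarith
  have step : ∀ p : {p : {c // Adm i c} × ℝ // Inv p.1 p.2},
      ∃ q : {p : {c // Adm i c} × ℝ // Inv p.1 p.2},
        (∀ b ≤ bb p.1.2, q.1.1.1 b = p.1.1.1 b) ∧
          q.1.2 = p.1.2 + (2 - p.1.2 - (G p.1.1 p.1.2).y) ^ 2 / 100 := by
    rintro ⟨⟨c, t⟩, a1, a2, a3, a4⟩
    simp only at a1 a2 a3 a4 ⊢
    have a6 : 0 ≤ (G c t).y := (Φ (lP hi c) t.toNNReal).2.1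
    obtain ⟨u, hu⟩ : ∃ u, u = (2 - t - (G c t).y) ^ 2 / 100 := ⟨_, rfl⟩
    have u0 : 0 ≤ u := by rw [hu]; positivity
    have u1 : t + u ≤ 2 := by nlinarith
    have main : ∀ ε : ℝ, (ε = 1 ∨ ε = -1) → 0 ≤ ε * ((G c t).x - c.1 (bb t)) →
        ∃ c' : {c // Adm i c}, (∀ b ≤ bb t, c'.1 b = c.1 b) ∧ Inv c' (t + u) := by
      intro ε hε hs
      have ag : ∀ b ≤ bb t, c.1 (min b (bb t)) + ε * max 0 (b - bb t) = c.1 b := by
        intro b hb
        rw [min_eq_left hb, max_eq_left (by linarith), mul_zero, add_zero]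
      have l1 : L1 fun b => c.1 (min b (bb t)) + ε * max 0 (b - bb t) := by
        intro a b
        have e1 := abs_le.1 (c.2.1 (min a (bb t)) (min b (bb t)))
        have e2 := le_abs_self (a - b)
        have e3 := neg_abs_le (a - b)
        rcases le_total a (bb t) with e4 | e4 <;> rcases le_total b (bb t) with e5 | e5
        · simp only [ag a e4, ag b e5]
          exact c.2.1 a b
        · simp only [min_eq_left e4, min_eq_right e5] at e1 ⊢
          rw [max_eq_left (show a - bb t ≤ 0 by linarith),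
            max_eq_right (show 0 ≤ b - bb t by linarith)]
          rw [abs_of_nonpos (show a - bb t ≤ 0 by linarith)] at e1
          rcases hε with rfl | rfl <;> exact abs_le.2 ⟨by linarith [e1.1], by linarith [e1.2]⟩
        · simp only [min_eq_right e4, min_eq_left e5] at e1 ⊢
          rw [max_eq_right (show 0 ≤ a - bb t by linarith),
            max_eq_left (show b - bb t ≤ 0 by linarith)]
          rw [abs_of_nonneg (show 0 ≤ bb t - b by linarith)] at e1
          rcases hε with rfl | rfl <;> exact abs_le.2 ⟨by linarith [e1.1], by linarith [e1.2]⟩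
        · simp only [min_eq_right e4, min_eq_right e5]
          rw [max_eq_right (show 0 ≤ a - bb t by linarith),
            max_eq_right (show 0 ≤ b - bb t by linarith)]
          rcases hε with rfl | rfl <;> exact abs_le.2 ⟨by linarith, by linarith⟩
      let c' : {c // Adm i c} := ⟨fun b => c.1 (min b (bb t)) + ε * max 0 (b - bb t), l1,
        fun b hb => (ag b (hb.trans (bb_mono a1 a2))).trans (c.2.2 b hb)⟩
      refine ⟨c', ag, ?_⟩
      have e1 : G c' t = G c t := congrArg Subtype.val (ga c' c t (by linarith) a2 ag)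
      obtain ⟨⟨b1, b2⟩, -⟩ := dist_le_iff.1 (lip_real (gl c') (show 0 ≤ t by linarith)
        (show t ≤ t + u by linarith))
      change |(G c' t).y - (G c' (t + u)).y| ≤ t + u - t at b1
      change |(G c' t).x - (G c' (t + u)).x| + (G c' t).y ^ 2 + (G c' (t + u)).y ^ 2 ≤
        ((G c' t).y + (G c' (t + u)).y + (t + u - t)) ^ 2 / 2 at b2
      rw [e1, show t + u - t = u by ring] at b1 b2
      have e2 : c'.1 (bb (t + u)) = c.1 (bb t) + ε * ((2 - t) ^ 2 - (2 - t - u) ^ 2) := by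
        have := bb_mono (show t ≤ t + u by linarith) u1
        show c.1 (min _ _) + ε * max 0 _ = _
        rw [min_eq_right this, max_eq_right (by linarith)]
        unfold bb
        ring
      have e3 : ∀ w : ℝ, |ε * w| = |w| := by
        intro w
        rcases hε with rfl | rfl <;> simp
      obtain ⟨b3, b4⟩ := step_ineq (Y := 2 - t) (c := (G c t).y) (b := (G c' (t + u)).y) (u := u)
        (e := ε * ((G c t).x - c.1 (bb t))) (d := ε * ((G c' (t + u)).x - (G c t).x)) a6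
        (by linarith) a3 hu hs (le_trans (le_abs_self _) (by rw [e3]; exact a4)) b1
        (by rw [e3, abs_sub_comm]; exact b2)
      refine ⟨by linarith, u1, by linarith, ?_⟩
      rw [e2, ← e3, show 2 - (t + u) = 2 - t - u by ring]
      refine le_trans (le_of_eq ?_) b4
      congr 1
      rcases hε with rfl | rfl <;> ring
    rcases le_total 0 ((G c t).x - c.1 (bb t)) with h | h
    · obtain ⟨c', k1, k2⟩ := main 1 (Or.inl rfl) (by linarith)
      exact ⟨⟨(c', t + u), k2⟩, k1, congrArg (fun z => t + z) hu⟩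
    · obtain ⟨c', k1, k2⟩ := main (-1) (Or.inr rfl) (by linarith)
      exact ⟨⟨(c', t + u), k2⟩, k1, congrArg (fun z => t + z) hu⟩
  choose nx hn1 hn2 using step
  let sq : ℕ → {p : {c // Adm i c} × ℝ // Inv p.1 p.2} := fun n =>
    nx^[n] ⟨(⟨chi i, chi_L1 i, fun _ _ => rfl⟩, 2 - i.2.2), init⟩
  have hsq : ∀ n, sq (n + 1) = nx (sq n) := fun n => Function.iterate_succ_apply' _ _ _
  obtain ⟨c, hc⟩ : ∃ c : ℕ → {c // Adm i c}, c = fun n => (sq n).1.1 := ⟨_, rfl⟩
  obtain ⟨t, ht⟩ : ∃ t : ℕ → ℝ, t = fun n => (sq n).1.2 := ⟨_, rfl⟩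
  have k0 : ∀ n, Inv (c n) (t n) := fun n => by
    rw [hc, ht]
    exact (sq n).2
  have k1 : ∀ n, ∀ b ≤ bb (t n), (c (n + 1)).1 b = (c n).1 b := fun n => by
    rw [hc, ht]
    simp only [hsq]
    exact hn1 (sq n)
  have k2 : ∀ n, t (n + 1) = t n + (2 - t n - (G (c n) (t n)).y) ^ 2 / 100 := fun n => by
    rw [hc, ht]
    simp only [hsq]
    exact hn2 (sq n)
  clear hc ht hsq sq hn1 hn2 nx
  have mono : Monotone t := monotone_nat_of_le_succ fun n => by
    rw [k2]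
    nlinarith [sq_nonneg (2 - t n - (G (c n) (t n)).y)]
  have bdd : BddAbove (Set.range t) := ⟨2, by
    rintro _ ⟨n, rfl⟩
    exact (k0 n).2.1⟩
  have lim : Tendsto t atTop (𝓝 (⨆ n, t n)) := tendsto_atTop_ciSup mono bdd
  have hle : ∀ n, t n ≤ ⨆ n, t n := fun n => le_ciSup bdd n
  have hT2 : (⨆ n, t n) ≤ 2 := ciSup_le fun n => (k0 n).2.1
  generalize (⨆ n, t n) = T at lim hle hT2
  have k3 : ∀ n m, n ≤ m → ∀ b ≤ bb (t n), (c m).1 b = (c n).1 b := by
    intro n m hnm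
    induction m, hnm using Nat.le_induction with
    | base => exact fun _ _ => rfl
    | succ m hm ih =>
      intro b hb
      rw [k1 m b (hb.trans (bb_mono (mono hm) (k0 m).2.1)), ih b hb]
  have cB : CauchySeq fun n => bb (t n) := by
    have : Continuous bb := by
      unfold bb
      fun_prop
    exact ((this.tendsto T).comp lim).cauchySeq
  have cK : ∀ b, ∃ w, Tendsto (fun n => (c n).1 (min b (bb (t n)))) atTop (𝓝 w) := by
    intro b
    apply cauchySeq_tendsto_of_complete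
    have key : ∀ n m, n ≤ m → dist ((c n).1 (min b (bb (t n)))) ((c m).1 (min b (bb (t m)))) ≤
        dist (bb (t n)) (bb (t m)) := by
      intro n m h
      rw [Real.dist_eq, Real.dist_eq, ← k3 n m h _ (min_le_right _ _)]
      exact le_trans ((c m).2.1 _ _) (le_trans (abs_min_sub_min_le_max _ _ _ _)
        (max_le (by simp) le_rfl))
    refine Metric.cauchySeq_iff.2 fun ε hε => ?_
    obtain ⟨N, hN⟩ := Metric.cauchySeq_iff.1 cB ε hε
    refine ⟨N, fun m hm n hn => lt_of_le_of_lt ?_ (hN m hm n hn)⟩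
    rcases le_total m n with h | h
    · exact key m n h
    · rw [dist_comm, dist_comm (bb (t m))]
      exact key n m h
  choose w hw using cK
  have w1 : ∀ n, ∀ b ≤ bb (t n), w b = (c n).1 b := by
    intro n b hb
    refine tendsto_nhds_unique (hw b) (tendsto_const_nhds.congr' ?_)
    filter_upwards [eventually_ge_atTop n] with m hm
    rw [min_eq_left (hb.trans (bb_mono (mono hm) (k0 m).2.1)), k3 n m hm b hb]
  have w2 : L1 w := by
    intro a b
    refine le_of_tendsto' ((hw a).sub (hw b)).abs fun n => ?_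
    exact le_trans ((c n).2.1 _ _) (le_trans (abs_min_sub_min_le_max _ _ _ _)
      (max_le le_rfl (by simp)))
  let cw : {c // Adm i c} := ⟨w, w2, fun b hb =>
    (w1 0 b (hb.trans (bb_mono (k0 0).1 (k0 0).2.1))).trans ((c 0).2.2 b hb)⟩
  have fin : ∀ n, dist (Φ (lP hi cw) T.toNNReal) (lP hi cw T.toNNReal) ≤
      2 * (T - t n) + 20 * Real.sqrt (T - t n) := by
    intro n
    have t0 : 0 ≤ t n := by linarith [(k0 n).1]
    have e1 := close _ _ (k0 n)
    rw [← ga cw (c n) (t n) t0 (k0 n).2.1 (w1 n),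
      ← lP_agree hi (c := cw) (c' := c n) t0 (k0 n).2.1 (w1 n) _ le_rfl] at e1
    have e2 := lip_real (gl cw) t0 (hle n)
    have e3 := lip_real (lP_lip hi cw) t0 (hle n)
    have e4 := dist_triangle4 (Φ (lP hi cw) T.toNNReal) (Φ (lP hi cw) (t n).toNNReal)
      (lP hi cw (t n).toNNReal) (lP hi cw T.toNNReal)
    rw [dist_comm] at e1 e2
    have e5 : (2 - t n - (G (c n) (t n)).y) / 10 ≤ Real.sqrt (T - t n) := by
      refine le_trans (le_abs_self _) (Real.abs_le_sqrt ?_)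
      have := hle (n + 1)
      rw [k2] at this
      linarith
    linarith
  have l0 : Tendsto (fun n => 2 * (T - t n) + 20 * Real.sqrt (T - t n)) atTop
      (𝓝 (2 * (T - T) + 20 * Real.sqrt (T - T))) :=
    (((tendsto_const_nhds.sub lim).const_mul 2).add
      ((tendsto_const_nhds.sub lim).sqrt.const_mul 20))
  have l1 := ge_of_tendsto' l0 fin
  simp only [sub_self, mul_zero, Real.sqrt_zero, add_zero] at l1
  refine h3 _ (lP_lip hi cw) (lP_zero hi cw) T.toNNReal ?_ (dist_le_zero.1 l1)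
  exact Real.toNNReal_le_iff_le_coe.2 hT2

theorem joined : Joined x0 y0 := by
  have hv : Valid (1 / 4, -1 / 16, Real.sqrt (31 / 16)) := by
    refine ⟨by norm_num, le_rfl, ?_, Real.sqrt_pos.2 (by norm_num), ?_, Or.inl (by norm_num)⟩
    · show |(-1 / 16 : ℝ)| ≤ 1 / 2
      exact abs_le.2 ⟨by norm_num, by norm_num⟩
    · show Real.sqrt (31 / 16) ^ 2 + (1 / 4 : ℝ) ^ 2 = 2
      rw [Real.sq_sqrt (by norm_num)]
      norm_num
  have l1 : L1 fun a => max (-a) (-1 / 16) := by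
    intro a b
    refine le_trans (abs_max_sub_max_le_max _ _ _ _) (max_le ?_ (by simp))
    rw [abs_sub_comm]
    exact le_of_eq (by congr 1; ring)
  have j1 := joined_of (lP_lip hv ⟨chi _, chi_L1 _, fun _ _ => rfl⟩)
  have j2 := joined_of (cP_lip l1)
  rw [lP_zero] at j1
  rw [cP_zero (by norm_num)] at j2
  refine j1.trans (Joined.symm ?_)
  convert j2 using 1
  apply Subtype.ext
  have e := lP_late hv ⟨chi _, chi_L1 _, fun _ _ => rfl⟩ (t := 2) (by linarith [hv.y_gt]) le_rfl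
  rw [show Real.toNNReal 2 = 2 by simp] at e
  rw [e]
  simp only [chi_late hv (show (1 / 2 : ℝ) ≤ 2 by norm_num) le_rfl]
  simp [cP, cPt, AA]
  norm_num

end Pool.Agent.H.MP_acfcdd_co
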